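import Pool.Agent.Lib.MP_056111_lc.Global

/-!
Negative answer to Darji's question: in the abelian Polish group `ℤ^ω` the strongly Haar meager
sets are not closed under unions of two sets, hence do not form a sigma-ideal.
-/

namespace Pool.Agent.Results.MP_056111_lc.NotIdeal

/-- A subset `A` of an abelian Polish group `G` is strongly Haar meager if there are a Borel set
`B ⊇ A` and a nonempty compact set `C ⊆ G` such that `(B + g) ∩ C` is meager in the subspace `C`
for every `g ∈ G`. -/
def IsStronglyHaarMeager {G : Type} [AddCommGroup G] [TopologicalSpace G]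
    [IsTopologicalAddGroup G] [PolishSpace G] (A : Set G) : Prop :=
  ∃ B : Set G, A ⊆ B ∧ @MeasurableSet G (borel G) B ∧
    ∃ C : Set G, C.Nonempty ∧ IsCompact C ∧
      ∀ g : G, IsMeagre {x : C | (x : G) ∈ (fun b => b + g) '' B}

open Pool.Agent.Lib.MP_056111_lc in
theorem result : ∃ A B : Set (ℕ → ℤ),
    IsStronglyHaarMeager A ∧ IsStronglyHaarMeager B ∧ ¬ IsStronglyHaarMeager (A ∪ B) := by
  refine ⟨glue H1, glue H2, ?_, ?_, ?_⟩
  · exact ⟨_, subset_rfl, borel_glue_H1, D1, ⟨0, D2_subset_D1 zero_mem_D2⟩, isCompact_D1,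
      glue_meagre subset_rfl (fun _ _ g h => H1_sh g h) fun _ hC => H1_meagre hC⟩
  · exact ⟨_, subset_rfl, borel_glue_H2, D2, ⟨0, zero_mem_D2⟩, isCompact_D2,
      glue_meagre D2_subset_D1 (fun _ _ g h => H2_sh g h) fun _ hC => H2_meagre hC⟩
  · rintro ⟨B, hB, -, C, hne, hC, h⟩
    obtain ⟨g, hg⟩ := union_not_meagre hB hC hne
    exact hg (h g)

end Pool.Agent.Results.MP_056111_lc.NotIdeal
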